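import Pool.Agent.helper69.AD.GS1

/-!
Module BD2 of the project ad (MP_a29257_gt): the cyclic order is invariant under SL(2, ℝ).
-/

open scoped MatrixGroups LinearAlgebra.Projectivization
open Matrix UpperHalfPlane

namespace AdSBend

theorem BD2_smul_zero (g : SL(2, ℝ)) (v : Fin 2 → ℝ) :
    (g • v) 0 = g.1 0 0 * v 0 + g.1 0 1 * v 1 := by
  change (g.1.mulVec v) 0 = _
  simp [Matrix.mulVec, dotProduct, Fin.sum_univ_two]

theorem BD2_smul_one (g : SL(2, ℝ)) (v : Fin 2 → ℝ) :
    (g • v) 1 = g.1 1 0 * v 0 + g.1 1 1 * v 1 := by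
  change (g.1.mulVec v) 1 = _
  simp [Matrix.mulVec, dotProduct, Fin.sum_univ_two]

theorem BD2_dt_smul (g : SL(2, ℝ)) (u v : Fin 2 → ℝ) : dt (g • u) (g • v) = dt u v := by
  have h : g.1 0 0 * g.1 1 1 - g.1 0 1 * g.1 1 0 = 1 := by
    rw [← Matrix.det_fin_two]; exact g.2
  unfold dt
  rw [BD2_smul_zero, BD2_smul_one, BD2_smul_zero, BD2_smul_one]
  linear_combination (u 0 * v 1 - u 1 * v 0) * h

theorem BD2 (h1 : BD1_stmt) : BD2_stmt := by
  intro g x y z
  induction x using Projectivization.ind with | _ u hu =>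
  induction y using Projectivization.ind with | _ v hv =>
  induction z using Projectivization.ind with | _ w hw =>
  rw [Projectivization.smul_mk, Projectivization.smul_mk, Projectivization.smul_mk,
    h1 _ _ _ _ _ _, h1 _ _ _ _ _ _, BD2_dt_smul, BD2_dt_smul, BD2_dt_smul]

end AdSBend
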