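import Pool.Agent.helper69.AD.GS1

/-!
Module BD3 of the project ad (MP_a29257_gt): linear coordinate on the complement of an ideal
point.
-/

open scoped MatrixGroups LinearAlgebra.Projectivization
open Matrix UpperHalfPlane

namespace AdSBend

/-- the real coordinate of an ideal point -/
noncomputable def BD3_co (c : Bd) : ℝ := c.rep 0 / c.rep 1

theorem BD3_bPt_ne (t : ℝ) : bPt t ≠ bInf := by
  intro h
  unfold bPt bInf at h
  rw [Projectivization.mk_eq_mk_iff'] at h
  obtain ⟨a, ha⟩ := h
  have := congrFun ha 1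
  simp at this

theorem BD3_rep_one {c : Bd} (hc : c ≠ bInf) : c.rep 1 ≠ 0 := by
  intro h
  apply hc
  rw [← Projectivization.mk_rep c]
  unfold bInf
  rw [Projectivization.mk_eq_mk_iff']
  refine ⟨c.rep 0, ?_⟩
  funext i
  fin_cases i
  · simp
  · simp [h]

theorem BD3_eq {c : Bd} (hc : c ≠ bInf) : c = bPt (BD3_co c) := by
  have h1 := BD3_rep_one hc
  conv_lhs => rw [← Projectivization.mk_rep c]
  unfold bPt
  rw [Projectivization.mk_eq_mk_iff']
  refine ⟨c.rep 1, ?_⟩
  funext i
  fin_cases i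
  · simp only [BD3_co, Fin.zero_eta, Pi.smul_apply, Matrix.cons_val_zero, smul_eq_mul]
    field_simp
  · simp

theorem BD3_bPt_inj {s t : ℝ} (h : bPt s = bPt t) : s = t := by
  unfold bPt at h
  rw [Projectivization.mk_eq_mk_iff'] at h
  obtain ⟨a, ha⟩ := h
  have h0 := congrFun ha 0
  have h1 := congrFun ha 1
  simp at h0 h1
  rw [h1, one_mul] at h0
  exact h0.symm

theorem BD3_co_bPt (t : ℝ) : BD3_co (bPt t) = t :=
  (BD3_bPt_inj (BD3_eq (BD3_bPt_ne t))).symm

theorem BD3_cyc_inf (h1 : BD1_stmt) (s t : ℝ) : Cyc bInf (bPt s) (bPt t) ↔ s < t := by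
  unfold bInf bPt
  rw [h1 _ _ _ _ _ _]
  simp [dt]

theorem BD3_cyc_real (h1 : BD1_stmt) (s t u : ℝ) : Cyc (bPt s) (bPt t) (bPt u) ↔
    (s < t ∧ t < u) ∨ (t < u ∧ u < s) ∨ (u < s ∧ s < t) := by
  unfold bPt
  rw [h1 _ _ _ _ _ _]
  simp only [dt, Matrix.cons_val_zero, Matrix.cons_val_one, mul_one, one_mul]
  constructor
  · intro h
    rcases lt_trichotomy s t with hst | hst | hst
    · rcases lt_trichotomy t u with htu | htu | htu
      · exact Or.inl ⟨hst, htu⟩
      · subst htu; simp at h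
      · right; right
        refine ⟨?_, hst⟩
        by_contra hc
        have : (s - t) * (t - u) < 0 := mul_neg_of_neg_of_pos (by linarith) (by linarith)
        nlinarith [mul_nonneg (neg_nonneg.mpr this.le) (sub_nonneg.mpr (not_lt.mp hc))]
    · subst hst; simp at h
    · rcases lt_trichotomy t u with htu | htu | htu
      · right; left
        refine ⟨htu, ?_⟩
        by_contra hc
        have : (s - t) * (t - u) < 0 := mul_neg_of_pos_of_neg (by linarith) (by linarith)
        nlinarith [mul_nonneg (neg_nonneg.mpr this.le) (sub_nonneg.mpr (not_lt.mp hc))]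
      · subst htu; simp at h
      · exfalso
        have : 0 < (s - t) * (t - u) := mul_pos (by linarith) (by linarith)
        nlinarith [mul_pos this (by linarith : 0 < s - u)]
  · rintro (⟨h1, h2⟩ | ⟨h1, h2⟩ | ⟨h1, h2⟩)
    · have : 0 < (t - s) * (u - t) := mul_pos (by linarith) (by linarith)
      nlinarith [mul_pos this (by linarith : 0 < u - s)]
    · have : 0 < (u - t) * (s - u) := mul_pos (by linarith) (by linarith)
      nlinarith [mul_pos this (by linarith : 0 < s - t)]
    · have : 0 < (s - u) * (t - s) := mul_pos (by linarith) (by linarith)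
      nlinarith [mul_pos this (by linarith : 0 < t - u)]

theorem BD3_exists (x : Bd) : ∃ g : SL(2, ℝ), g • x = bInf := by
  induction x using Projectivization.ind with | _ u hu =>
  have hn : u 0 ^ 2 + u 1 ^ 2 ≠ 0 := by
    intro h
    have h0 : u 0 = 0 := by nlinarith [sq_nonneg (u 0), sq_nonneg (u 1)]
    have h1 : u 1 = 0 := by nlinarith [sq_nonneg (u 0), sq_nonneg (u 1)]
    apply hu
    funext i
    fin_cases i
    · exact h0
    · exact h1
  refine ⟨⟨!![u 0 / (u 0 ^ 2 + u 1 ^ 2), u 1 / (u 0 ^ 2 + u 1 ^ 2); -(u 1), u 0], ?_⟩, ?_⟩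
  · rw [Matrix.det_fin_two_of]
    field_simp
    ring
  · rw [Projectivization.smul_mk]
    unfold bInf
    rw [Projectivization.mk_eq_mk_iff']
    refine ⟨1, ?_⟩
    rw [one_smul]
    change _ = Matrix.mulVec _ u
    funext i
    fin_cases i
    · simp [Matrix.mulVec, dotProduct, Fin.sum_univ_two]
      field_simp
    · simp [Matrix.mulVec, dotProduct, Fin.sum_univ_two]
      ring

theorem BD3 (h1 : BD1_stmt) (h2 : BD2_stmt) : BD3_stmt := by
  intro x
  obtain ⟨g, hg⟩ := BD3_exists x
  have hne : ∀ a, a ≠ x → g • a ≠ bInf := by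
    intro a ha h
    rw [← hg] at h
    exact ha (MulAction.injective g h)
  refine ⟨fun a => BD3_co (g • a), ?_, ?_, ?_, ?_, ?_⟩
  · intro t
    refine ⟨g⁻¹ • bPt t, ?_, ?_⟩
    · intro h
      apply BD3_bPt_ne t
      rw [← hg, ← h, smul_inv_smul]
    · change BD3_co (g • g⁻¹ • bPt t) = t
      rw [smul_inv_smul, BD3_co_bPt]
  · intro a b ha hb hab
    apply MulAction.injective g
    change g • a = g • b
    rw [BD3_eq (hne a ha), BD3_eq (hne b hb)]
    exact congrArg bPt hab
  · intro a b ha hb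
    rw [← h2 g, hg, BD3_eq (hne a ha), BD3_eq (hne b hb), BD3_cyc_inf h1]
  · intro a b c ha hb hc
    rw [← h2 g, BD3_eq (hne a ha), BD3_eq (hne b hb), BD3_eq (hne c hc), BD3_cyc_real h1]
  · intro a b
    have h0 : ∀ u : Fin 2 → ℝ, dt u u = 0 := fun u => by unfold dt; ring
    refine ⟨?_, ?_, ?_, ?_, ?_⟩
    · unfold Cyc; rw [h0]; simp
    · unfold Cyc; rw [h0 x.rep]; simp
    · unfold Cyc; rw [h0 x.rep]; simp
    · unfold Cyc
      rw [show dt a.rep b.rep * dt b.rep x.rep * dt x.rep a.rep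
        = dt x.rep a.rep * dt a.rep b.rep * dt b.rep x.rep by ring]
    · unfold Cyc
      rw [show dt b.rep x.rep * dt x.rep a.rep * dt a.rep b.rep
        = dt x.rep a.rep * dt a.rep b.rep * dt b.rep x.rep by ring]

end AdSBend
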