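import Pool.Agent.helper69.AD.GS4

/-!
Module CLM of the project ad (MP_a29257_gt): every multicurve is contained in a pants
decomposition.
-/

open scoped MatrixGroups LinearAlgebra.Projectivization
open Matrix UpperHalfPlane

namespace AdSBend

open LeafSystem

theorem CLM (pn2 : PN2_stmt) (pn3 : PN3_stmt) (pn4 : PN4_stmt) (hx1 : HX1_stmt)
    (clc : CLC_stmt) (clk : CLK_stmt) (cll : CLL_stmt) : CLM_stmt := by
  intro Γ hΓ S₀
  obtain ⟨S, hS, hmax⟩ := clc Γ hΓ S₀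
  refine ⟨S, hS, ⟨?_, ?_⟩, ?_⟩
  · intro p hp
    obtain ⟨z, hz⟩ := (pn3 Γ hΓ S p hp).1
    obtain ⟨p', q, r, hhex, hnear⟩ := clk Γ hΓ S z hmax hz.1
    have hp' : p' ∈ S.L := hhex.1.1
    rcases (pn4 Γ hΓ S p hp p' hp' z hz).1 hnear with h | h
    · subst h
      exact ⟨q, r, hhex⟩
    · obtain ⟨u, v, huv⟩ := cll Γ hΓ S p' q r hhex p ((pn2 Γ hΓ S).1 p p' h)
      obtain ⟨-, -, -, -, -, -, h7⟩ := hx1 Γ hΓ S
      exact ⟨u, v, (h7 p' q r p u v hhex huv).1⟩
  · intro p q r h s hs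
    exact cll Γ hΓ S p q r h s hs
  · by_contra hne
    rw [Set.not_nonempty_iff_eq_empty] at hne
    have hoff : S.OffPt UpperHalfPlane.I := by
      intro p hp
      rw [hne] at hp
      exact absurd hp (Set.notMem_empty p)
    obtain ⟨p', q, r, hhex, -⟩ := clk Γ hΓ S UpperHalfPlane.I hmax hoff
    have hp' : p' ∈ S.L := hhex.1.1
    rw [hne] at hp'
    exact absurd hp' (Set.notMem_empty p')

end AdSBend
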