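import Pool.Agent.helper69.AD.GS3

/-!
Module HX1 of the project ad (MP_a29257_gt): elementary properties of hexagons.
-/

open scoped MatrixGroups LinearAlgebra.Projectivization
open Matrix UpperHalfPlane

namespace AdSBend

open LeafSystem

/-! ### auxiliary lemmas -/

theorem HX1_neg_smul (g : SL(2, ℝ)) (x : Bd) : (-g) • x = g • x := by
  induction x using Projectivization.ind with | _ u hu =>
  rw [Projectivization.smul_mk, Projectivization.smul_mk, Projectivization.mk_eq_mk_iff']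
  refine ⟨-1, ?_⟩
  have h1 : ((-g : SL(2, ℝ))).1.mulVec u = -(g.1.mulVec u) := by
    rw [Matrix.SpecialLinearGroup.coe_neg, Matrix.neg_mulVec]
  exact (neg_one_smul ℝ (g.1.mulVec u)).trans h1.symm

theorem HX1_peq_smul {g h : SL(2, ℝ)} (H : PEq g h) (x : Bd) : g • x = h • x := by
  rcases H with H | H
  · rw [H]
  · rw [H, HX1_neg_smul]

theorem HX1_peq_refl (g : SL(2, ℝ)) : PEq g g := Or.inl rfl

theorem HX1_peq_symm {g h : SL(2, ℝ)} (H : PEq g h) : PEq h g := by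
  rcases H with H | H
  · exact Or.inl H.symm
  · right
    rw [H, neg_neg]

theorem HX1_peq_trans {g h k : SL(2, ℝ)} (H : PEq g h) (K : PEq h k) : PEq g k := by
  rcases H with H | H <;> rcases K with K | K
  · exact Or.inl (H.trans K)
  · exact Or.inr (H.trans K)
  · right; rw [H, K]
  · left; rw [H, K, neg_neg]

theorem HX1_peq_mul {g g' h h' : SL(2, ℝ)} (H : PEq g g') (K : PEq h h') :
    PEq (g * h) (g' * h') := by
  rcases H with H | H <;> rcases K with K | K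
  · left; rw [H, K]
  · right; rw [H, K, mul_neg]
  · right; rw [H, K, neg_mul]
  · left; rw [H, K, neg_mul_neg]

theorem HX1_peq_inv {g h : SL(2, ℝ)} (H : PEq g h) : PEq g⁻¹ h⁻¹ := by
  rcases H with H | H
  · left; rw [H]
  · right
    rw [H]
    apply inv_eq_of_mul_eq_one_right
    rw [neg_mul_neg, mul_inv_cancel]

theorem HX1_peq_mul_left (k : SL(2, ℝ)) {g h : SL(2, ℝ)} (H : PEq g h) :
    PEq (k * g) (k * h) := HX1_peq_mul (HX1_peq_refl k) H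

theorem HX1_peq_mul_right (k : SL(2, ℝ)) {g h : SL(2, ℝ)} (H : PEq g h) :
    PEq (g * k) (h * k) := HX1_peq_mul H (HX1_peq_refl k)

/-- conjugation of a relation -/
theorem HX1_peq_conj_one (k : SL(2, ℝ)) {g : SL(2, ℝ)} (H : PEq g 1) :
    PEq (k * g * k⁻¹) 1 := by
  have := HX1_peq_mul_right k⁻¹ (HX1_peq_mul_left k H)
  rw [mul_one, mul_inv_cancel] at this
  exact this

theorem HX1_rot {x y z : Bd} (h : Cyc x y z) : Cyc y z x := by
  unfold Cyc at h ⊢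
  rw [show dt y.rep z.rep * dt z.rep x.rep * dt x.rep y.rep
    = dt x.rep y.rep * dt y.rep z.rep * dt z.rep x.rep by ring]
  exact h

theorem HX1_attracts_peq {g h : SL(2, ℝ)} {p : Bd × Bd} (H : PEq g h) (K : Attracts g p) :
    Attracts h p := by
  obtain ⟨h1, h2, h3, h4⟩ := K
  refine ⟨h1, ?_, ?_, ?_⟩
  · rw [← HX1_peq_smul H]; exact h2
  · rw [← HX1_peq_smul H]; exact h3
  · intro c hc
    rw [← HX1_peq_smul H]; exact h4 c hc

section

variable {Γ : Subgroup SL(2, ℝ)}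

theorem HX1_isGen (hΓ : IsClosedSurfaceGroup Γ) (gm1 : GM1_stmt) (S : LeafSystem Γ)
    {p : Bd × Bd} (hp : p ∈ S.L) : IsGen Γ p (gen Γ p) :=
  gm1 Γ hΓ p (S.closed p hp)

theorem HX1_ga_gen (hΓ : IsClosedSurfaceGroup Γ) (gm1 : GM1_stmt) (S : LeafSystem Γ)
    {p : Bd × Bd} (hp : p ∈ S.L) : ga (gen Γ p) p = p := by
  obtain ⟨-, h, -⟩ := HX1_isGen hΓ gm1 S hp
  exact Prod.ext h.2.1 h.2.2.1

theorem HX1_ga_gen_inv (hΓ : IsClosedSurfaceGroup Γ) (gm1 : GM1_stmt) (S : LeafSystem Γ)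
    {p : Bd × Bd} (hp : p ∈ S.L) : ga (gen Γ p)⁻¹ p = p := by
  obtain ⟨-, h, -⟩ := HX1_isGen hΓ gm1 S hp
  refine Prod.ext ?_ ?_
  · change (gen Γ p)⁻¹ • p.1 = p.1
    rw [inv_smul_eq_iff]; exact h.2.1.symm
  · change (gen Γ p)⁻¹ • p.2 = p.2
    rw [inv_smul_eq_iff]; exact h.2.2.1.symm

/-- the order of the shifted leaf -/
theorem HX1_order (hΓ : IsClosedSurfaceGroup Γ) (bd2 : BD2_stmt) (bd3 : BD3_stmt)
    (gm1 : GM1_stmt) (S : LeafSystem Γ) {p q r : Bd × Bd} (h : S.Hex p q r) :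
    Cyc p.1 r.1 (gen Γ p • q.1) ∧ Cyc p.1 r.2 (gen Γ p • q.1) := by
  obtain ⟨hpq, hqr, hrp, hc, hrel⟩ := h
  obtain ⟨φ, -, hinj, hlt, hcyc, -⟩ := bd3 p.1
  have hne : ∀ x y : Bd, Cyc p.1 x y → x ≠ p.1 ∧ y ≠ p.1 := by
    intro x y hxy
    constructor
    · rintro rfl
      unfold Cyc at hxy
      have : dt p.1.rep p.1.rep = 0 := by unfold dt; ring
      rw [this] at hxy
      simp at hxy
    · rintro rfl
      unfold Cyc at hxy
      have : dt p.1.rep p.1.rep = 0 := by unfold dt; ring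
      rw [this] at hxy
      simp at hxy
  obtain ⟨-, hgp, -⟩ := HX1_isGen hΓ gm1 S hpq.1
  obtain ⟨-, hgr, -⟩ := HX1_isGen hΓ gm1 S hrp.1
  have f1 : Cyc p.1 p.2 q.1 := hpq.2.2.1.1
  have f2 : Cyc p.1 r.1 r.2 := HX1_rot (HX1_rot hrp.2.2.1.1)
  have f3 : Cyc q.1 r.1 r.2 := hqr.2.2.1.2
  have n2 := hne _ _ f1
  have n3 := hne _ _ f2
  -- the point x = gp q.1
  have hx : (gen Γ r)⁻¹ • q.1 = gen Γ p • q.1 := by
    have e1 : PEq (gen Γ r)⁻¹ (gen Γ p * gen Γ q) := by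
      have := HX1_peq_mul_right (gen Γ r)⁻¹ hrel
      rw [mul_inv_cancel_right, one_mul] at this
      exact HX1_peq_symm this
    rw [HX1_peq_smul e1, mul_smul]
    obtain ⟨-, hgq, -⟩ := HX1_isGen hΓ gm1 S hpq.2.1
    rw [hgq.2.1]
  have hc1 : Cyc p.1 p.2 (gen Γ p • q.1) := by
    have := (bd2 (gen Γ p) p.1 p.2 q.1).2 f1
    rwa [hgp.2.1, hgp.2.2.1] at this
  have nx := (hne _ _ hc1).2
  have hc2 : Cyc p.2 q.1 (gen Γ p • q.1) := hgp.2.2.2 q.1 (HX1_rot f1)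
  have hc3 : Cyc r.2 (gen Γ p • q.1) q.1 := by
    have e1 : Cyc r.2 q.1 r.1 := HX1_rot (HX1_rot f3)
    have e2 := (bd2 (gen Γ r)⁻¹ _ _ _).2 e1
    rw [hx, inv_smul_eq_iff.2 hgr.2.1.symm, inv_smul_eq_iff.2 hgr.2.2.1.symm] at e2
    have e3 := hgr.2.2.2 _ e2
    rw [← hx, smul_inv_smul, hx] at e3
    exact e3
  have l1 := (hlt _ _ n2.1 n2.2).1 f1
  have l2 := (hlt _ _ n3.1 n3.2).1 f2
  have l3 := (hlt _ _ n2.1 nx).1 hc1
  have l4 := (hcyc _ _ _ n2.1 n2.2 nx).1 hc2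
  have l5 := (hcyc _ _ _ n3.2 nx n2.2).1 hc3
  have l6 : φ q.1 < φ (gen Γ p • q.1) := by
    rcases l4 with h | h | h
    · exact h.2
    · linarith [h.1]
    · linarith [h.1]
  have l7 : φ r.2 < φ (gen Γ p • q.1) := by
    rcases l5 with h | h | h
    · exact h.1
    · linarith [h.1]
    · linarith [h.1, h.2]
  exact ⟨(hlt _ _ n3.1 nx).2 (l2.trans l7), (hlt _ _ n3.2 nx).2 l7⟩

theorem HX1_ne_of_cyc {x y z : Bd} (h : Cyc x y z) : y ≠ z := by
  rintro rfl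
  unfold Cyc at h
  have : dt y.rep y.rep = 0 := by unfold dt; ring
  rw [this] at h
  simp at h

end

theorem HX1 (bd2 : BD2_stmt) (bd3 : BD3_stmt) (bd8 : BD8_stmt) (gm1 : GM1_stmt)
    (gm2 : GM2_stmt) (pn2 : PN2_stmt) : HX1_stmt := by
  intro Γ hΓ S
  obtain ⟨csymm, cinv, cthird⟩ := pn2 Γ hΓ S
  obtain ⟨-, gconj, -⟩ := gm2 Γ hΓ
  have rot : ∀ p q r, S.Hex p q r → S.Hex q r p := by
    rintro p q r ⟨hpq, hqr, hrp, hc, hrel⟩
    refine ⟨hqr, hrp, hpq, HX1_rot hc, ?_⟩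
    have := HX1_peq_conj_one (gen Γ p)⁻¹ hrel
    rw [inv_inv] at this
    rwa [show (gen Γ p)⁻¹ * (gen Γ p * gen Γ q * gen Γ r) * gen Γ p
      = gen Γ q * gen Γ r * gen Γ p by group] at this
  have shift : ∀ p q r, S.Hex p q r → S.Hex p r (ga (gen Γ p) q) := by
    intro p q r h
    obtain ⟨ho1, ho2⟩ := HX1_order hΓ bd2 bd3 gm1 S h
    obtain ⟨hpq, hqr, hrp, hc, hrel⟩ := h
    obtain ⟨hgpΓ, hgp, -⟩ := HX1_isGen hΓ gm1 S hpq.1
    have hne : r ≠ ga (gen Γ p) q := by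
      intro he
      have := HX1_ne_of_cyc ho1
      exact this (congrArg Prod.fst he)
    have c1 : S.CoPl p (ga (gen Γ p) q) := by
      have := cinv (gen Γ p) hgpΓ p q hpq
      rwa [show (gen Γ p • p.1, gen Γ p • p.2) = p from HX1_ga_gen hΓ gm1 S hpq.1] at this
    refine ⟨csymm _ _ hrp, cthird _ _ _ (csymm _ _ hrp) c1 hne, csymm _ _ c1, ho1, ?_⟩
    have e1 : PEq (gen Γ (ga (gen Γ p) q)) (gen Γ p * gen Γ q * (gen Γ p)⁻¹) :=
      gconj q (S.closed q hpq.2.1) (gen Γ p) hgpΓ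
    have e2 := HX1_peq_mul_left (gen Γ p * gen Γ r) e1
    refine HX1_peq_trans e2 ?_
    have e3 : PEq (gen Γ r * gen Γ p * gen Γ q) 1 := by
      have := HX1_peq_conj_one (gen Γ r) hrel
      rwa [show gen Γ r * (gen Γ p * gen Γ q * gen Γ r) * (gen Γ r)⁻¹
        = gen Γ r * gen Γ p * gen Γ q by group] at this
    have e4 := HX1_peq_conj_one (gen Γ p) e3
    rwa [show gen Γ p * (gen Γ r * gen Γ p * gen Γ q) * (gen Γ p)⁻¹
      = gen Γ p * gen Γ r * (gen Γ p * gen Γ q * (gen Γ p)⁻¹) by group] at e4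
  have equiv : ∀ γ ∈ Γ, ∀ p q r, S.Hex p q r → S.Hex (ga γ p) (ga γ q) (ga γ r) := by
    rintro γ hγ p q r ⟨hpq, hqr, hrp, hc, hrel⟩
    refine ⟨cinv γ hγ _ _ hpq, cinv γ hγ _ _ hqr, cinv γ hγ _ _ hrp, (bd2 γ _ _ _).2 hc, ?_⟩
    have e1 := gconj p (S.closed p hpq.1) γ hγ
    have e2 := gconj q (S.closed q hpq.2.1) γ hγ
    have e3 := gconj r (S.closed r hrp.1) γ hγ
    refine HX1_peq_trans (HX1_peq_mul (HX1_peq_mul e1 e2) e3) ?_
    have e4 := HX1_peq_conj_one γ hrel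
    rwa [show γ * (gen Γ p * gen Γ q * gen Γ r) * γ⁻¹
      = γ * gen Γ p * γ⁻¹ * (γ * gen Γ q * γ⁻¹) * (γ * gen Γ r * γ⁻¹) by group] at e4
  have unshift : ∀ p q r, S.Hex p q r → S.Hex p (ga (gen Γ p)⁻¹ r) q := by
    intro p q r h
    have hΓp : (gen Γ p)⁻¹ ∈ Γ := Γ.inv_mem (HX1_isGen hΓ gm1 S h.1.1).1
    have := equiv _ hΓp _ _ _ (shift p q r h)
    rw [HX1_ga_gen_inv hΓ gm1 S h.1.1,
      show ga (gen Γ p)⁻¹ (ga (gen Γ p) q) = q from
        Prod.ext (inv_smul_smul _ _) (inv_smul_smul _ _)] at this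
    exact this
  refine ⟨rot, shift, unshift, equiv, ?_, ?_, ?_⟩
  · intro p q r r' h h'
    obtain ⟨-, hgr, -⟩ := HX1_isGen hΓ gm1 S h.2.2.1.1
    obtain ⟨-, hgr', -⟩ := HX1_isGen hΓ gm1 S h'.2.2.1.1
    have e : PEq (gen Γ r) (gen Γ r') := by
      have e1 := HX1_peq_trans h.2.2.2.2 (HX1_peq_symm h'.2.2.2.2)
      have e2 := HX1_peq_mul_left (gen Γ p * gen Γ q)⁻¹ e1
      rwa [inv_mul_cancel_left, inv_mul_cancel_left] at e2
    exact bd8.2.2.1 (gen Γ r') r r' (HX1_attracts_peq e hgr) hgr'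
  · intro p q r h
    have e : PEq (gen Γ r) ((gen Γ q)⁻¹ * (gen Γ p)⁻¹) := by
      have e1 := HX1_peq_mul_left (gen Γ p * gen Γ q)⁻¹ h.2.2.2.2
      rwa [inv_mul_cancel_left, mul_one, _root_.mul_inv_rev] at e1
    obtain ⟨-, hgp, -⟩ := HX1_isGen hΓ gm1 S h.1.1
    refine Prod.ext ?_ ?_
    · change (gen Γ q)⁻¹ • p.1 = gen Γ r • p.1
      rw [HX1_peq_smul e, mul_smul, inv_smul_eq_iff.2 hgp.2.1.symm]
    · change (gen Γ q)⁻¹ • p.2 = gen Γ r • p.2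
      rw [HX1_peq_smul e, mul_smul, inv_smul_eq_iff.2 hgp.2.2.1.symm]
  · have key : ∀ p u x, (u = p ∨ S.CoPl p u) → S.CoPl u x → (x = p ∨ S.CoPl p x) := by
      intro p u x hu hx
      rcases hu with rfl | hu
      · exact Or.inr hx
      · by_cases he : x = p
        · exact Or.inl he
        · exact Or.inr (cthird u p x (csymm _ _ hu) hx (Ne.symm he))
    have main : ∀ p q r, S.Hex p q r → ∀ h : (Bd × Bd) × (Bd × Bd) × (Bd × Bd),
        HexConn Γ (p, q, r) h → S.Hex h.1 h.2.1 h.2.2 ∧ (h.1 = p ∨ S.CoPl p h.1) ∧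
          (h.2.1 = p ∨ S.CoPl p h.2.1) ∧ (h.2.2 = p ∨ S.CoPl p h.2.2) := by
      intro p q r hpqr h hconn
      unfold HexConn at hconn
      induction hconn with
      | refl => exact ⟨hpqr, Or.inl rfl, Or.inr hpqr.1, Or.inr (csymm _ _ hpqr.2.2.1)⟩
      | tail _ hmove ih =>
        rename_i b c _
        obtain ⟨i0, i1, i2, i3⟩ := ih
        rcases hmove with rfl | rfl | rfl
        · exact ⟨rot _ _ _ i0, i2, i3, i1⟩
        · have hs := shift _ _ _ i0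
          exact ⟨hs, i1, i3, key _ _ _ i1 (csymm _ _ hs.2.2.1)⟩
        · have hs := unshift _ _ _ i0
          exact ⟨hs, i1, key _ _ _ i1 hs.1, i2⟩
    intro p q r u v w h hconn
    have := main p q r h (u, v, w) hconn
    exact ⟨this.1, this.2.1⟩

end AdSBend
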