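import Pool.Agent.helper69.AD.GS5
import Pool.Agent.helper13.AG.HX1

/-!
Module FA3 of the project ad (MP_a29257_gt): seam frames of a pair of pants.
-/

open scoped MatrixGroups LinearAlgebra.Projectivization
open Matrix UpperHalfPlane
open Pool.Agent.helper73.AD (PS Arc Word sg AData Family PreFamily Cone bs)

namespace AdSBend

theorem FA3_conj_mat (d l : ℝ) : (Em d * Dm (-l) * Em (-d) : SL(2, ℝ)).1 =
    !![Real.cosh (l / 2) - Real.sinh (l / 2) * Real.cosh d, Real.sinh (l / 2) * Real.sinh d;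
      -(Real.sinh (l / 2) * Real.sinh d),
      Real.cosh (l / 2) + Real.sinh (l / 2) * Real.cosh d] := by
  have e1 : Real.exp (-l / 2) = Real.cosh (l / 2) - Real.sinh (l / 2) := by
    rw [Real.cosh_sub_sinh]; congr 1; ring
  have e2 : Real.exp (-(-l / 2)) = Real.cosh (l / 2) + Real.sinh (l / 2) := by
    rw [Real.cosh_add_sinh]; congr 1; ring
  have e3 : Real.cosh (-d / 2) = Real.cosh (d / 2) := by
    rw [← Real.cosh_neg (d / 2)]; congr 1; ring
  have e4 : Real.sinh (-d / 2) = -Real.sinh (d / 2) := by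
    rw [← Real.sinh_neg (d / 2)]; congr 1; ring
  have e5 : Real.cosh d = Real.cosh (d / 2) ^ 2 + Real.sinh (d / 2) ^ 2 := by
    rw [← Real.cosh_two_mul]; congr 1; ring
  have e6 : Real.sinh d = 2 * Real.sinh (d / 2) * Real.cosh (d / 2) := by
    rw [← Real.sinh_two_mul]; congr 1; ring
  have e7 := Real.cosh_sq (d / 2)
  rw [Matrix.SpecialLinearGroup.coe_mul, Matrix.SpecialLinearGroup.coe_mul]
  change !![Real.cosh (d / 2), Real.sinh (d / 2); Real.sinh (d / 2), Real.cosh (d / 2)] *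
    !![Real.exp (-l / 2), 0; 0, Real.exp (-(-l / 2))] *
    !![Real.cosh (-d / 2), Real.sinh (-d / 2); Real.sinh (-d / 2), Real.cosh (-d / 2)] = _
  rw [e1, e2, e3, e4, e5, e6]
  clear e1 e2 e3 e4 e5 e6
  generalize Real.cosh (l / 2) = C
  generalize Real.sinh (l / 2) = S
  generalize Real.cosh (d / 2) = u at e7 ⊢
  generalize Real.sinh (d / 2) = v at e7 ⊢
  ext i j
  fin_cases i <;> fin_cases j
  · simp
    linear_combination C * e7
  · simp
    ring
  · simp
    ring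
  · simp
    linear_combination C * e7

theorem FA3_core (la lx ly d : ℝ) (hla : 0 < la) (hlx : 0 < lx) (hly : 0 < ly) (hd : 0 < d)
    (h : Real.cosh (ly / 2) = Real.sinh (lx / 2) * Real.cosh d * Real.sinh (la / 2)
      - Real.cosh (la / 2) * Real.cosh (lx / 2)) :
    ∃ e : ℝ, 0 < e ∧ Dm la * (Em d * Dm (-lx) * Em (-d)) *
      (Dm (la / 2) * (Em e * Dm (-ly) * Em (-e)) * Dm (-(la / 2))) = (-1 : SL(2, ℝ)) := by
  have hSa : 0 < Real.sinh (la / 2) := Real.sinh_pos_iff.2 (by linarith)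
  have hSx : 0 < Real.sinh (lx / 2) := Real.sinh_pos_iff.2 (by linarith)
  have hSy : 0 < Real.sinh (ly / 2) := Real.sinh_pos_iff.2 (by linarith)
  have hsd : 0 < Real.sinh d := Real.sinh_pos_iff.2 hd
  have hCa := Real.cosh_pos (la / 2)
  have hCx := Real.cosh_pos (lx / 2)
  have hCy := Real.cosh_pos (ly / 2)
  have qa := Real.cosh_sq (la / 2)
  have qx := Real.cosh_sq (lx / 2)
  have qy := Real.cosh_sq (ly / 2)
  have qd := Real.cosh_sq d
  set W : ℝ := (Real.sinh (lx / 2) * Real.cosh d * Real.cosh (la / 2)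
    - Real.cosh (lx / 2) * Real.sinh (la / 2)) / Real.sinh (ly / 2) with hW
  have hSW : Real.sinh (ly / 2) * W = Real.sinh (lx / 2) * Real.cosh d * Real.cosh (la / 2)
      - Real.cosh (lx / 2) * Real.sinh (la / 2) := by
    rw [hW]; field_simp
  have hWpos : 0 < W := by
    have h1 : Real.sinh (la / 2) * (Real.sinh (ly / 2) * W) =
        Real.cosh (la / 2) * Real.cosh (ly / 2) + Real.cosh (lx / 2) := by
      rw [hSW, h]
      linear_combination (Real.cosh (lx / 2)) * qa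
    have h2 : 0 < Real.sinh (la / 2) * (Real.sinh (ly / 2) * W) := by
      rw [h1]; positivity
    exact (pos_iff_pos_of_mul_pos ((mul_pos_iff_of_pos_left hSa).1 h2)).1 hSy
  have hW2 : Real.sinh (ly / 2) ^ 2 * (W ^ 2 - 1) = (Real.sinh (lx / 2) * Real.sinh d) ^ 2 := by
    have h1 : Real.sinh (ly / 2) ^ 2 * W ^ 2 = (Real.sinh (lx / 2) * Real.cosh d *
        Real.cosh (la / 2) - Real.cosh (lx / 2) * Real.sinh (la / 2)) ^ 2 := by
      rw [← hSW]; ring
    have h2 : Real.sinh (ly / 2) ^ 2 = (Real.sinh (lx / 2) * Real.cosh d * Real.sinh (la / 2)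
      - Real.cosh (la / 2) * Real.cosh (lx / 2)) ^ 2 - 1 := by
      rw [← h]; linarith
    rw [mul_sub, mul_one, h1, h2]
    linear_combination (Real.sinh (lx / 2) ^ 2 * Real.cosh d ^ 2 - Real.cosh (lx / 2) ^ 2) * qa
      - qx + Real.sinh (lx / 2) ^ 2 * qd
  have hW1 : 1 < W := by
    have h1 : 0 < (Real.sinh (lx / 2) * Real.sinh d) ^ 2 := by positivity
    rw [← hW2] at h1
    have h2 : 0 < W ^ 2 - 1 := (mul_pos_iff_of_pos_left (by positivity)).1 h1
    nlinarith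
  refine ⟨Real.arcosh W, Real.arcosh_pos hW1, ?_⟩
  have hce : Real.cosh (Real.arcosh W) = W := Real.cosh_arcosh hW1.le
  have hse : Real.sinh (ly / 2) * Real.sinh (Real.arcosh W) =
      Real.sinh (lx / 2) * Real.sinh d := by
    have h1 : 0 < Real.sinh (Real.arcosh W) := Real.sinh_pos_iff.2 (Real.arcosh_pos hW1)
    rw [← sq_eq_sq₀ (mul_pos hSy h1).le (mul_pos hSx hsd).le, ← hW2, mul_pow,
      Real.sinh_sq (Real.arcosh W), hce]
  apply Subtype.ext
  rw [Matrix.SpecialLinearGroup.coe_mul, Matrix.SpecialLinearGroup.coe_mul,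
    Matrix.SpecialLinearGroup.coe_mul (Dm (la / 2) * _), Matrix.SpecialLinearGroup.coe_mul
    (Dm (la / 2)), FA3_conj_mat, FA3_conj_mat, hce, hSW, hse, h]
  have a1 : Real.exp (la / 2) = Real.cosh (la / 2) + Real.sinh (la / 2) := by
    rw [Real.cosh_add_sinh]
  have a2 : Real.exp (-(la / 2)) = Real.cosh (la / 2) - Real.sinh (la / 2) := by
    rw [Real.cosh_sub_sinh]
  have b1 : Real.exp (la / 2 / 2) * Real.exp (la / 2 / 2) =
      Real.cosh (la / 2) + Real.sinh (la / 2) := by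
    rw [← Real.exp_add, ← a1]; congr 1; ring
  have b2 : Real.exp (-(la / 2 / 2)) * Real.exp (-(la / 2 / 2)) =
      Real.cosh (la / 2) - Real.sinh (la / 2) := by
    rw [← Real.exp_add, ← a2]; congr 1; ring
  have b3 : Real.exp (la / 2 / 2) * Real.exp (-(la / 2 / 2)) = 1 := by
    rw [← Real.exp_add]; simp
  have c1 : Real.exp (-(la / 2) / 2) = Real.exp (-(la / 2 / 2)) := by congr 1; ring
  have c2 : Real.exp (-(-(la / 2) / 2)) = Real.exp (la / 2 / 2) := by congr 1; ring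
  have hD1 : (Dm (la / 2)).1 =
      !![Real.exp (la / 2 / 2), 0; 0, Real.exp (-(la / 2 / 2))] := rfl
  have hD2 : (Dm (-(la / 2))).1 =
      !![Real.exp (-(la / 2) / 2), 0; 0, Real.exp (-(-(la / 2) / 2))] := rfl
  have hD3 : (Dm la).1 = !![Real.exp (la / 2), 0; 0, Real.exp (-(la / 2))] := rfl
  have hone : ((-1 : SL(2, ℝ))).1 = !![(-1 : ℝ), 0; 0, -1] := by
    rw [Matrix.SpecialLinearGroup.coe_neg, Matrix.SpecialLinearGroup.coe_one]
    ext i j
    fin_cases i <;> fin_cases j <;> simp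
  rw [hD1, hD2, hD3, c1, c2, a1, a2, hone]
  clear hD1 hD2 hD3 hone c1 c2 a1 a2 hce hse hW1 hW2 hWpos hSW h hCa hCx hCy hsd hSy hSx hSa qy
  clear_value W
  generalize Real.cosh (la / 2) = Ca at *
  generalize Real.sinh (la / 2) = Sa at *
  generalize Real.cosh (lx / 2) = Cx at *
  generalize Real.sinh (lx / 2) = Sx at *
  generalize Real.cosh d = u at *
  generalize Real.sinh d = v at *
  generalize Real.exp (la / 2 / 2) = e at *
  generalize Real.exp (-(la / 2 / 2)) = E at *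
  ext i j
  fin_cases i <;> fin_cases j
  · simp
    linear_combination (Ca + Sa) * (Cx - Sx * u) * (-(Cx + Sx * u) * (Ca - Sa)) * b3
      - (Ca + Sa) * Sx ^ 2 * v ^ 2 * b2 - (Cx ^ 2 - Sx ^ 2 * u ^ 2 + Sx ^ 2 * v ^ 2) * qa
      - qx + Sx ^ 2 * qd
  · simp
    linear_combination (Ca + Sa) * (Cx - Sx * u) * Sx * v * b1
      + (Ca + Sa) * Sx * v * ((Sx * u - Cx) * (Ca + Sa)) * b3
  · simp
    linear_combination -(Ca - Sa) * Sx * v * (-(Cx + Sx * u) * (Ca - Sa)) * b3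
      - (Ca - Sa) * (Cx + Sx * u) * Sx * v * b2
  · simp
    linear_combination -(Ca - Sa) * Sx ^ 2 * v ^ 2 * b1
      + (Ca - Sa) * (Cx + Sx * u) * ((Sx * u - Cx) * (Ca + Sa)) * b3
      - (Cx ^ 2 - Sx ^ 2 * u ^ 2 + Sx ^ 2 * v ^ 2) * qa - qx + Sx ^ 2 * qd

theorem FA3_trc_neg (g : SL(2, ℝ)) : trc (-g) = -trc g := by
  unfold trc
  rw [Matrix.SpecialLinearGroup.coe_neg]
  simp only [Matrix.neg_apply]
  ring

theorem FA3_trc_pos (g : SL(2, ℝ)) : trc (pos g) = |trc g| := by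
  unfold pos
  split_ifs with h
  · rw [abs_of_nonneg h]
  · rw [FA3_trc_neg, abs_of_neg (not_le.1 h)]

theorem FA3_pos_peq (g : SL(2, ℝ)) : PEq (pos g) g := by
  unfold pos
  split_ifs with h
  · exact Or.inl rfl
  · exact Or.inr rfl

theorem FA3_trc_inv (g : SL(2, ℝ)) : trc g⁻¹ = trc g := by
  unfold trc
  rw [Matrix.SpecialLinearGroup.SL2_inv_expl]
  simp
  ring

theorem FA3_aux (fa0 : FA0_stmt) (fa1 : FA1_stmt) (fa2 : FA2_stmt) (tw1 : TW1_stmt)
    (a x y F : SL(2, ℝ)) (ha : 2 < |trc a|) (hx : 2 < |trc x|) (hy : 2 < |trc y|)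
    (hrel : PEq (a * x * y) 1) (hneg : trc (pos a * pos x) < 0) (hF : IsSeamFrame a x F) :
    pos a * pos x * pos y = -1 ∧ trc (pos x * pos y) < 0 ∧ trc (pos y * pos a) < 0 ∧
    0 < sd (len a) (len x) (len y) ∧
    SeamD a x F (sd (len a) (len x) (len y)) ∧
    IsSeamFrame a y (F * Dm (len a / 2)) := by
  obtain ⟨-, -, -, tw⟩ := tw1
  obtain ⟨-, -, -, hla, hta⟩ := tw a ha
  obtain ⟨-, -, -, hlx, htx⟩ := tw x hx
  obtain ⟨-, -, -, hly, hty⟩ := tw y hy
  -- the product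
  have hprod : pos a * pos x * pos y = -1 := by
    have h1 : PEq (pos a * pos x * pos y) 1 :=
      HX1_peq_trans (HX1_peq_mul (HX1_peq_mul (FA3_pos_peq a) (FA3_pos_peq x))
        (FA3_pos_peq y)) hrel
    rcases h1 with h1 | h1
    · exfalso
      have h2 : pos a * pos x = (pos y)⁻¹ := eq_inv_of_mul_eq_one_left h1
      rw [h2, FA3_trc_inv, FA3_trc_pos] at hneg
      linarith [abs_nonneg (trc y)]
    · exact h1
  have hax : pos a * pos x = -(pos y)⁻¹ := by
    have h1 : pos a * pos x * pos y * (pos y)⁻¹ = -1 * (pos y)⁻¹ := by rw [hprod]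
    rw [mul_inv_cancel_right] at h1
    rw [h1, neg_one_mul]
  have hxy : pos x * pos y = -(pos a)⁻¹ := by
    have h1 : (pos a)⁻¹ * (pos a * pos x * pos y) = (pos a)⁻¹ * (-1) := by rw [hprod]
    rw [mul_assoc, inv_mul_cancel_left] at h1
    rw [h1, mul_neg_one]
  have hya : pos y * pos a = -(pos x)⁻¹ := by
    have h2 : pos y = -(pos a * pos x)⁻¹ := by
      rw [hax]
      have h3 : (-(pos y)⁻¹)⁻¹ = -(pos y) := by
        apply inv_eq_of_mul_eq_one_right
        rw [neg_mul_neg, inv_mul_cancel]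
      rw [h3, neg_neg]
    rw [h2, neg_mul, _root_.mul_inv_rev, mul_assoc, inv_mul_cancel, mul_one]
  obtain ⟨d, hd⟩ := (fa1.2.2.2.2.1 a x F).1 hF
  obtain ⟨hdpos, hda, hdx⟩ := hd
  have htr : Real.cosh (len y / 2) = Real.sinh (len x / 2) * Real.cosh d *
      Real.sinh (len a / 2) - Real.cosh (len a / 2) * Real.cosh (len x / 2) := by
    have h1 := fa2.1 a x ha hx
    rw [fa2.2.1 a x F d ha hx ⟨hdpos, hda, hdx⟩, hax, FA3_trc_neg, FA3_trc_inv,
      FA3_trc_pos, hty] at h1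
    linarith
  have hSa : 0 < Real.sinh (len a / 2) := Real.sinh_pos_iff.2 (by linarith)
  have hSx : 0 < Real.sinh (len x / 2) := Real.sinh_pos_iff.2 (by linarith)
  have hsd : sd (len a) (len x) (len y) = d := by
    unfold sd
    have h1 : (Real.cosh (len y / 2) + Real.cosh (len a / 2) * Real.cosh (len x / 2)) /
        (Real.sinh (len a / 2) * Real.sinh (len x / 2)) = Real.cosh d := by
      rw [htr]
      field_simp
      ring
    rw [h1, Real.arcosh_cosh hdpos.le]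
  refine ⟨hprod, ?_, ?_, ?_, ?_, ?_⟩
  · rw [hxy, FA3_trc_neg, FA3_trc_inv, FA3_trc_pos]; linarith
  · rw [hya, FA3_trc_neg, FA3_trc_inv, FA3_trc_pos]; linarith
  · rw [hsd]; exact hdpos
  · rw [hsd]; exact ⟨hdpos, hda, hdx⟩
  · obtain ⟨e, hepos, he⟩ := FA3_core (len a) (len x) (len y) d hla hlx hly hdpos htr
    obtain ⟨f1, f2, f3, -⟩ := fa0
    refine ⟨e, hepos, ?_, ?_⟩
    · rw [_root_.mul_inv_rev, f3]
      have h1 : F * Dm (len a / 2) * Dm (len a) * (Dm (-(len a / 2)) * F⁻¹)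
          = F * (Dm (len a / 2) * Dm (len a) * Dm (-(len a / 2))) * F⁻¹ := by
        simp only [mul_assoc]
      rw [h1, f1, f1, hda]
      congr 3
      ring
    · have h1 : pos a * pos x * (F * Dm (len a / 2) * Em e * Dm (-len y) * Em (-e) *
          (F * Dm (len a / 2))⁻¹) = -1 := by
        rw [hda, hdx, _root_.mul_inv_rev, f3]
        have h2 : F * Dm (len a) * F⁻¹ * (F * Em d * Dm (-len x) * Em (-d) * F⁻¹) *
            (F * Dm (len a / 2) * Em e * Dm (-len y) * Em (-e) * (Dm (-(len a / 2)) * F⁻¹))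
            = F * (Dm (len a) * (Em d * Dm (-len x) * Em (-d)) *
              (Dm (len a / 2) * (Em e * Dm (-len y) * Em (-e)) * Dm (-(len a / 2)))) * F⁻¹ := by
          group
        rw [h2, he, mul_neg, mul_one, neg_mul, mul_inv_cancel]
      exact mul_left_cancel (hprod.trans h1.symm)

theorem FA3 (fa0 : FA0_stmt) (fa1 : FA1_stmt) (fa2 : FA2_stmt) (tw1 : TW1_stmt) :
    FA3_stmt := by
  intro a x y F ha hx hy hrel hneg hF
  obtain ⟨h1, h2, h3, h4, h5, h6⟩ := FA3_aux fa0 fa1 fa2 tw1 a x y F ha hx hy hrel hneg hF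
  have rev : ∀ g h K : SL(2, ℝ), IsSeamFrame g h K → ∃ K', IsSeamFrame h g K' := by
    intro g h K hK
    obtain ⟨d, hd⟩ := (fa1.2.2.2.2.1 g h K).1 hK
    exact ⟨_, (fa1.2.2.2.2.1 h g _).2 ⟨d, fa2.2.2.2.2 g h K d hd⟩⟩
  obtain ⟨K, hK⟩ := rev a y _ h6
  have hrel2 : PEq (y * a * x) 1 := by
    have := HX1_peq_conj_one y hrel
    rwa [show y * (a * x * y) * y⁻¹ = y * a * x by group] at this
  obtain ⟨-, -, -, -, -, h7⟩ := FA3_aux fa0 fa1 fa2 tw1 y a x K hy ha hx hrel2 h3 hK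
  exact ⟨h1, h2, h3, h4, h5, fa2.2.2.2.2 a x F _ h5, h6, rev y x _ h7, ⟨K, hK⟩, ⟨_, h7⟩⟩

end AdSBend
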