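import Pool.Agent.helper69.AD.GS5

/-!
Module FA4 of the project ad (MP_a29257_gt): the entries of the arc matrices.
-/

open scoped MatrixGroups LinearAlgebra.Projectivization
open Matrix UpperHalfPlane
open Pool.Agent.helper73.AD (PS Arc Word sg AData Family PreFamily Cone bs lc ls)

namespace AdSBend

theorem FA4_key1 (a b c : ℝ) : Real.cosh (c / 2) + Real.cosh (a / 2) * Real.cosh (b / 2)
    + Real.sinh (a / 2) * Real.sinh (b / 2)
    = 2 * (Real.cosh ((a + b + c) / 4) * Real.cosh ((a + b - c) / 4)) := by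
  have h1 : Real.cosh (a / 2) * Real.cosh (b / 2) + Real.sinh (a / 2) * Real.sinh (b / 2)
      = Real.cosh ((a + b + c) / 4 + (a + b - c) / 4) := by
    rw [← Real.cosh_add]; congr 1; ring
  have h2 : Real.cosh (c / 2) = Real.cosh ((a + b + c) / 4 - (a + b - c) / 4) := by
    congr 1; ring
  rw [add_assoc, h1, h2, Real.cosh_add, Real.cosh_sub]
  ring

theorem FA4_key2 (a b c : ℝ) : Real.cosh (c / 2) + Real.cosh (a / 2) * Real.cosh (b / 2)
    - Real.sinh (a / 2) * Real.sinh (b / 2)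
    = 2 * (Real.cosh ((a - b + c) / 4) * Real.cosh ((-a + b + c) / 4)) := by
  have h1 : Real.cosh (a / 2) * Real.cosh (b / 2) - Real.sinh (a / 2) * Real.sinh (b / 2)
      = Real.cosh ((a - b + c) / 4 - (-a + b + c) / 4) := by
    rw [← Real.cosh_sub]; congr 1; ring
  have h2 : Real.cosh (c / 2) = Real.cosh ((a - b + c) / 4 + (-a + b + c) / 4) := by
    congr 1; ring
  rw [add_sub_assoc, h1, h2, Real.cosh_add, Real.cosh_sub]
  ring

theorem FA4_exp_lc (x : ℝ) : Real.exp (lc x) = Real.cosh x := by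
  unfold lc
  rw [Real.exp_log (Real.cosh_pos x)]

theorem FA4_exp_ls {x : ℝ} (hx : 0 < x) : Real.exp (ls x) = Real.sinh x := by
  unfold ls
  rw [Real.exp_log (Real.sinh_pos_iff.2 hx)]

/-- the argument of arcosh -/
noncomputable def FA4_X (a b c : ℝ) : ℝ :=
  (Real.cosh (c / 2) + Real.cosh (a / 2) * Real.cosh (b / 2)) /
    (Real.sinh (a / 2) * Real.sinh (b / 2))

theorem FA4_X_add {a b : ℝ} (ha : 0 < a) (hb : 0 < b) (c : ℝ) :
    FA4_X a b c + 1 = 2 * (Real.cosh ((a + b + c) / 4) * Real.cosh ((a + b - c) / 4)) /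
      (Real.sinh (a / 2) * Real.sinh (b / 2)) := by
  have h1 : 0 < Real.sinh (a / 2) := Real.sinh_pos_iff.2 (by linarith)
  have h2 : 0 < Real.sinh (b / 2) := Real.sinh_pos_iff.2 (by linarith)
  unfold FA4_X
  rw [← FA4_key1, add_div, add_div, div_self (mul_pos h1 h2).ne', ← add_div]

theorem FA4_X_sub {a b : ℝ} (ha : 0 < a) (hb : 0 < b) (c : ℝ) :
    FA4_X a b c - 1 = 2 * (Real.cosh ((a - b + c) / 4) * Real.cosh ((-a + b + c) / 4)) /
      (Real.sinh (a / 2) * Real.sinh (b / 2)) := by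
  have h1 : 0 < Real.sinh (a / 2) := Real.sinh_pos_iff.2 (by linarith)
  have h2 : 0 < Real.sinh (b / 2) := Real.sinh_pos_iff.2 (by linarith)
  unfold FA4_X
  rw [← FA4_key2, sub_div, div_self (mul_pos h1 h2).ne']

theorem FA4_one_lt {a b : ℝ} (ha : 0 < a) (hb : 0 < b) (c : ℝ) : 1 < FA4_X a b c := by
  have h1 : 0 < Real.sinh (a / 2) := Real.sinh_pos_iff.2 (by linarith)
  have h2 : 0 < Real.sinh (b / 2) := Real.sinh_pos_iff.2 (by linarith)
  have h3 := FA4_X_sub ha hb c
  have h4 : 0 < 2 * (Real.cosh ((a - b + c) / 4) * Real.cosh ((-a + b + c) / 4)) /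
      (Real.sinh (a / 2) * Real.sinh (b / 2)) := by
    have := Real.cosh_pos ((a - b + c) / 4)
    have := Real.cosh_pos ((-a + b + c) / 4)
    positivity
  linarith

theorem FA4_cosh_sd {a b : ℝ} (ha : 0 < a) (hb : 0 < b) (c : ℝ) :
    Real.cosh (sd a b c) = FA4_X a b c :=
  Real.cosh_arcosh (FA4_one_lt ha hb c).le

theorem FA4_sd_pos {a b : ℝ} (ha : 0 < a) (hb : 0 < b) (c : ℝ) : 0 < sd a b c :=
  Real.arcosh_pos (FA4_one_lt ha hb c)

theorem FA4_cosh_half {a b : ℝ} (ha : 0 < a) (hb : 0 < b) (c : ℝ) :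
    Real.cosh (sd a b c / 2) = Real.exp ((lc ((a + b + c) / 4) + lc ((a + b - c) / 4)
      - ls (a / 2) - ls (b / 2)) / 2) := by
  have h1 : 0 < Real.sinh (a / 2) := Real.sinh_pos_iff.2 (by linarith)
  have h2 : 0 < Real.sinh (b / 2) := Real.sinh_pos_iff.2 (by linarith)
  rw [← sq_eq_sq₀ (Real.cosh_pos _).le (Real.exp_pos _).le, ← Real.exp_nat_mul]
  have e1 : ((2 : ℕ) : ℝ) * ((lc ((a + b + c) / 4) + lc ((a + b - c) / 4)
      - ls (a / 2) - ls (b / 2)) / 2) = lc ((a + b + c) / 4) + lc ((a + b - c) / 4)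
      - ls (a / 2) - ls (b / 2) := by push_cast; ring
  rw [e1, Real.exp_sub, Real.exp_sub, Real.exp_add, FA4_exp_lc, FA4_exp_lc,
    FA4_exp_ls (by linarith), FA4_exp_ls (by linarith)]
  have e2 : Real.cosh (sd a b c) = Real.cosh (sd a b c / 2) ^ 2 + Real.sinh (sd a b c / 2) ^ 2 := by
    rw [← Real.cosh_two_mul]; congr 1; ring
  have e3 := Real.cosh_sq (sd a b c / 2)
  have e4 := FA4_X_add ha hb c
  rw [← FA4_cosh_sd ha hb c] at e4
  have e5 : Real.cosh (sd a b c / 2) ^ 2 = (Real.cosh (sd a b c) + 1) / 2 := by linarith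
  rw [e5, e4]
  field_simp

theorem FA4_sinh_half {a b : ℝ} (ha : 0 < a) (hb : 0 < b) (c : ℝ) :
    Real.sinh (sd a b c / 2) = Real.exp ((lc ((a - b + c) / 4) + lc ((-a + b + c) / 4)
      - ls (a / 2) - ls (b / 2)) / 2) := by
  have h1 : 0 < Real.sinh (a / 2) := Real.sinh_pos_iff.2 (by linarith)
  have h2 : 0 < Real.sinh (b / 2) := Real.sinh_pos_iff.2 (by linarith)
  have h3 : 0 < Real.sinh (sd a b c / 2) :=
    Real.sinh_pos_iff.2 (by linarith [FA4_sd_pos ha hb c])
  rw [← sq_eq_sq₀ h3.le (Real.exp_pos _).le, ← Real.exp_nat_mul]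
  have e1 : ((2 : ℕ) : ℝ) * ((lc ((a - b + c) / 4) + lc ((-a + b + c) / 4)
      - ls (a / 2) - ls (b / 2)) / 2) = lc ((a - b + c) / 4) + lc ((-a + b + c) / 4)
      - ls (a / 2) - ls (b / 2) := by push_cast; ring
  rw [e1, Real.exp_sub, Real.exp_sub, Real.exp_add, FA4_exp_lc, FA4_exp_lc,
    FA4_exp_ls (by linarith), FA4_exp_ls (by linarith)]
  have e2 : Real.cosh (sd a b c) = Real.cosh (sd a b c / 2) ^ 2 + Real.sinh (sd a b c / 2) ^ 2 := by
    rw [← Real.cosh_two_mul]; congr 1; ring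
  have e3 := Real.cosh_sq (sd a b c / 2)
  have e4 := FA4_X_sub ha hb c
  rw [← FA4_cosh_sd ha hb c] at e4
  have e5 : Real.sinh (sd a b c / 2) ^ 2 = (Real.cosh (sd a b c) - 1) / 2 := by linarith
  rw [e5, e4]
  field_simp

/-- the diagonal entries of the wave matrix -/
theorem FA4_wave_diag {a b : ℝ} (ha : 0 < a) (hb : 0 < b) (c : ℝ) :
    Real.sinh (b / 2) * Real.sinh (sd a b c) = Real.exp (Real.log 2 +
      (lc ((a + b + c) / 4) + lc ((-a + b + c) / 4)
        + lc ((a - b + c) / 4) + lc ((a + b - c) / 4)) / 2 - ls (a / 2)) := by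
  have h1 : 0 < Real.sinh (a / 2) := Real.sinh_pos_iff.2 (by linarith)
  have h2 : 0 < Real.sinh (b / 2) := Real.sinh_pos_iff.2 (by linarith)
  have e2 : Real.sinh (sd a b c) = 2 * Real.sinh (sd a b c / 2) * Real.cosh (sd a b c / 2) := by
    rw [← Real.sinh_two_mul]; congr 1; ring
  rw [e2, FA4_cosh_half ha hb c, FA4_sinh_half ha hb c]
  have e3 : Real.sinh (b / 2) = Real.exp (ls (b / 2)) := (FA4_exp_ls (by linarith)).symm
  have e4 : (2 : ℝ) = Real.exp (Real.log 2) := (Real.exp_log (by norm_num)).symm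
  rw [e3]
  conv_lhs => rw [show (2 : ℝ) * Real.exp ((lc ((a - b + c) / 4) + lc ((-a + b + c) / 4)
      - ls (a / 2) - ls (b / 2)) / 2) = Real.exp (Real.log 2) *
      Real.exp ((lc ((a - b + c) / 4) + lc ((-a + b + c) / 4)
      - ls (a / 2) - ls (b / 2)) / 2) from by rw [← e4]]
  rw [← Real.exp_add, ← Real.exp_add, ← Real.exp_add]
  congr 1
  ring

theorem FA4_wave_sub {a b : ℝ} (ha : 0 < a) (hb : 0 < b) (c : ℝ) :
    Real.sinh (b / 2) * Real.cosh (sd a b c) - Real.cosh (b / 2) =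
      Real.exp (Real.log (Real.cosh (b / 2) * Real.exp (-(a / 2)) + Real.cosh (c / 2))
        - ls (a / 2)) := by
  have h1 : 0 < Real.sinh (a / 2) := Real.sinh_pos_iff.2 (by linarith)
  have h2 : 0 < Real.sinh (b / 2) := Real.sinh_pos_iff.2 (by linarith)
  have h3 : 0 < Real.cosh (b / 2) * Real.exp (-(a / 2)) + Real.cosh (c / 2) := by
    have := Real.cosh_pos (b / 2)
    have := Real.cosh_pos (c / 2)
    positivity
  rw [Real.exp_sub, Real.exp_log h3, FA4_exp_ls (by linarith), FA4_cosh_sd ha hb c,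
    ← Real.cosh_sub_sinh (a / 2)]
  unfold FA4_X
  field_simp
  ring

theorem FA4_wave_add {a b : ℝ} (ha : 0 < a) (hb : 0 < b) (c : ℝ) :
    Real.sinh (b / 2) * Real.cosh (sd a b c) + Real.cosh (b / 2) =
      Real.exp (Real.log (Real.cosh (b / 2) * Real.exp (a / 2) + Real.cosh (c / 2))
        - ls (a / 2)) := by
  have h1 : 0 < Real.sinh (a / 2) := Real.sinh_pos_iff.2 (by linarith)
  have h2 : 0 < Real.sinh (b / 2) := Real.sinh_pos_iff.2 (by linarith)
  have h3 : 0 < Real.cosh (b / 2) * Real.exp (a / 2) + Real.cosh (c / 2) := by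
    have := Real.cosh_pos (b / 2)
    have := Real.cosh_pos (c / 2)
    positivity
  rw [Real.exp_sub, Real.exp_log h3, FA4_exp_ls (by linarith), FA4_cosh_sd ha hb c,
    ← Real.cosh_add_sinh (a / 2)]
  unfold FA4_X
  field_simp
  ring

/-- the four entries of the wave matrix -/
theorem FA4_wave_mat (d x : ℝ) : (-(Em d * Dm (-x) * Em (-d) * Rm) : SL(2, ℝ)).1 =
    !![Real.sinh (x / 2) * Real.sinh d, Real.sinh (x / 2) * Real.cosh d - Real.cosh (x / 2);
      Real.sinh (x / 2) * Real.cosh d + Real.cosh (x / 2), Real.sinh (x / 2) * Real.sinh d] := by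
  have e1 : Real.exp (-x / 2) = Real.cosh (x / 2) - Real.sinh (x / 2) := by
    rw [Real.cosh_sub_sinh]; congr 1; ring
  have e2 : Real.exp (-(-x / 2)) = Real.cosh (x / 2) + Real.sinh (x / 2) := by
    rw [Real.cosh_add_sinh]; congr 1; ring
  have e3 : Real.cosh (-d / 2) = Real.cosh (d / 2) := by
    rw [← Real.cosh_neg (d / 2)]; congr 1; ring
  have e4 : Real.sinh (-d / 2) = -Real.sinh (d / 2) := by
    rw [← Real.sinh_neg (d / 2)]; congr 1; ring
  have e5 : Real.cosh d = Real.cosh (d / 2) ^ 2 + Real.sinh (d / 2) ^ 2 := by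
    rw [← Real.cosh_two_mul]; congr 1; ring
  have e6 : Real.sinh d = 2 * Real.sinh (d / 2) * Real.cosh (d / 2) := by
    rw [← Real.sinh_two_mul]; congr 1; ring
  have e7 := Real.cosh_sq (d / 2)
  rw [Matrix.SpecialLinearGroup.coe_neg, Matrix.SpecialLinearGroup.coe_mul,
    Matrix.SpecialLinearGroup.coe_mul, Matrix.SpecialLinearGroup.coe_mul]
  change -(!![Real.cosh (d / 2), Real.sinh (d / 2); Real.sinh (d / 2), Real.cosh (d / 2)] *
    !![Real.exp (-x / 2), 0; 0, Real.exp (-(-x / 2))] *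
    !![Real.cosh (-d / 2), Real.sinh (-d / 2); Real.sinh (-d / 2), Real.cosh (-d / 2)] *
    !![0, 1; -1, 0]) = _
  rw [e1, e2, e3, e4, e5, e6]
  clear e1 e2 e3 e4 e5 e6
  generalize Real.cosh (x / 2) = C
  generalize Real.sinh (x / 2) = S
  generalize Real.cosh (d / 2) = u at e7 ⊢
  generalize Real.sinh (d / 2) = v at e7 ⊢
  ext i j
  fin_cases i <;> fin_cases j
  · simp
    ring
  · simp
    linear_combination (-C) * e7
  · simp
    linear_combination C * e7
  · simp
    ring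

theorem FA4 : FA4_stmt := by
  intro J a q hq s s'
  cases a with
  | seam a b c =>
    have ha := hq a
    have hb := hq b
    have h1 := FA4_cosh_half ha hb (q c)
    have h2 := FA4_sinh_half ha hb (q c)
    cases s <;> cases s'
    · exact h1
    · exact h2
    · exact h2
    · exact h1
  | wave a b c =>
    have ha := hq a
    have hb := hq b
    change (-(Em (sd (q a) (q b) (q c)) * Dm (-q b) * Em (-sd (q a) (q b) (q c)) * Rm) :
      SL(2, ℝ)).1 (bi s) (bi s') = _
    rw [FA4_wave_mat]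
    cases s <;> cases s'
    · exact FA4_wave_diag ha hb (q c)
    · exact FA4_wave_add ha hb (q c)
    · exact FA4_wave_sub ha hb (q c)
    · exact FA4_wave_diag ha hb (q c)

end AdSBend
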